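import Mathlib

/-!
The formula of Cauchy and Binet.
-/

open Matrix

namespace Pool.Agent.LibAC84C

variable {R : Type*} [CommRing R] {r D : ℕ}

theorem det_sum_fun (M N : Matrix (Fin r) (Fin D) R) :
    (M.transpose * N).det = ∑ f : Fin D → Fin r, (∏ a, M (f a) a) * (N.submatrix f id).det := by
  have h1 : (M.transpose * N) = Matrix.of fun a => ∑ i, M i a • N i := by
    ext a b
    rw [Matrix.mul_apply, Matrix.of_apply, Finset.sum_apply]
    rfl
  rw [h1]
  have h2 := (Matrix.detRowAlternating (R := R) (n := Fin D)).toMultilinearMap.map_sum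
    (fun a (i : Fin r) => M i a • N i)
  change Matrix.det (fun a => ∑ i, M i a • N i) = _ at h2
  refine h2.trans (Finset.sum_congr rfl fun f _ => ?_)
  have h3 := (Matrix.detRowAlternating (R := R) (n := Fin D)).toMultilinearMap.map_smul_univ
    (fun a => M (f a) a) (fun a => N (f a))
  exact h3

theorem cauchyBinet (M N : Matrix (Fin r) (Fin D) R) :
    (M.transpose * N).det = ∑ I : {I : Finset (Fin r) // I.card = D},
      (M.submatrix (I.1.orderEmbOfFin I.2) id).det *
        (N.submatrix (I.1.orderEmbOfFin I.2) id).det := by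
  rw [det_sum_fun]
  -- only injective functions contribute
  have h1 : ∑ f : Fin D → Fin r, (∏ a, M (f a) a) * (N.submatrix f id).det =
      ∑ f ∈ Finset.univ.filter (fun f : Fin D → Fin r => Function.Injective f),
        (∏ a, M (f a) a) * (N.submatrix f id).det := by
    symm
    apply Finset.sum_filter_of_ne
    intro f _ hf
    by_contra hni
    apply hf
    rw [Function.Injective] at hni
    push Not at hni
    obtain ⟨a, b, hab, hne⟩ := hni
    rw [Matrix.det_zero_of_row_eq hne (by
      funext c
      show N (f a) c = N (f b) c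
      rw [hab]), mul_zero]
  have h2 : ∀ I : {I : Finset (Fin r) // I.card = D},
      (M.submatrix (I.1.orderEmbOfFin I.2) id).det *
        (N.submatrix (I.1.orderEmbOfFin I.2) id).det =
      ∑ σ : Equiv.Perm (Fin D), (∏ a, M (I.1.orderEmbOfFin I.2 (σ a)) a) *
        (N.submatrix (fun a => I.1.orderEmbOfFin I.2 (σ a)) id).det := by
    intro I
    rw [Matrix.det_apply, Finset.sum_mul]
    refine Finset.sum_congr rfl fun σ _ => ?_
    have h3 : N.submatrix (fun a => I.1.orderEmbOfFin I.2 (σ a)) id =
        (N.submatrix (I.1.orderEmbOfFin I.2) id).submatrix σ id := rfl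
    rw [h3, Matrix.det_permute]
    simp only [Matrix.submatrix_apply, id_eq, Units.smul_def, zsmul_eq_mul]
    ring
  rw [h1, Finset.sum_congr rfl fun I _ => h2 I, ← Finset.sum_product']
  symm
  refine Finset.sum_bij (fun p _ => fun a => p.1.1.orderEmbOfFin p.1.2 (p.2 a)) ?_ ?_ ?_ ?_
  · intro p _
    rw [Finset.mem_filter]
    exact ⟨Finset.mem_univ _, fun a b h => p.2.injective
      ((p.1.1.orderEmbOfFin p.1.2).injective h)⟩
  · rintro ⟨⟨I, hI⟩, σ⟩ _ ⟨⟨J, hJ⟩, τ⟩ _ h
    have h3 : ∀ a, I.orderEmbOfFin hI (σ a) = J.orderEmbOfFin hJ (τ a) := congrFun h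
    have h4 : I = J := by
      have e1 : ∀ (I : Finset (Fin r)) (hI : I.card = D) (σ : Equiv.Perm (Fin D)),
          Set.range (fun a => I.orderEmbOfFin hI (σ a)) = (I : Set (Fin r)) := by
        intro I hI σ
        rw [← Finset.range_orderEmbOfFin I hI]
        exact σ.surjective.range_comp _
      have e2 := e1 I hI σ
      have e3 := e1 J hJ τ
      rw [show (fun a => I.orderEmbOfFin hI (σ a)) = fun a => J.orderEmbOfFin hJ (τ a) from
        funext h3, e3] at e2
      exact (Finset.coe_injective e2).symm
    subst h4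
    have h5 : σ = τ := by
      ext a
      have := (I.orderEmbOfFin hI).injective (h3 a)
      rw [this]
    subst h5
    rfl
  · intro f hf
    rw [Finset.mem_filter] at hf
    have hf' := hf.2
    have hcard : (Finset.univ.image f).card = D := by
      rw [Finset.card_image_of_injective _ hf', Finset.card_univ, Fintype.card_fin]
    let e := (Finset.univ.image f).orderIsoOfFin hcard
    have hmem : ∀ a, f a ∈ Finset.univ.image f := fun a => Finset.mem_image_of_mem f
      (Finset.mem_univ a)
    let s : Fin D → Fin D := fun a => e.symm ⟨f a, hmem a⟩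
    have hs : Function.Injective s := by
      intro a b h
      have := e.symm.injective h
      exact hf' (congrArg Subtype.val this)
    let σ : Equiv.Perm (Fin D) := Equiv.ofBijective s (Finite.injective_iff_bijective.1 hs)
    refine ⟨(⟨Finset.univ.image f, hcard⟩, σ), Finset.mem_product.2
      ⟨Finset.mem_univ _, Finset.mem_univ _⟩, ?_⟩
    funext a
    show ((e (s a) : Fin r)) = f a
    show ((e (e.symm ⟨f a, hmem a⟩) : Fin r)) = f a
    rw [OrderIso.apply_symm_apply]
  · intro p _
    rfl

end Pool.Agent.LibAC84C
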