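import Pool.Agent.LibAC84C.Count
import Pool.Agent.LibAC34.CMain
import Pool.Agent.LibBH2.TwTools

/-!
The converse: if the cycle is torsion then the numbers of `AllDimC` are zero.
-/

open WeierstrassCurve Pool.Agent.LibBH2 Pool.Agent.LibIG50 Pool.Agent.LibCHd Pool.Agent.LibGG
  Pool.Agent.LibAC34 Pool.Agent.LibAF11
open scoped Classical ComplexConjugate

namespace Pool.Agent.LibAC84C

open Pool.Agent.LibAC84H (schur)

section alg
variable {R D : Type} [Fintype R] [DecidableEq R] [Fintype D] [DecidableEq D]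

open Matrix in
theorem alg (M N : Matrix R D ℂ) (z G : R → ℂ) (X e : D → ℂ)
    (h : ∀ a, e a = ∑ i, M i a * (G i + ∑ b, N i b * X b)) :
    (Mᵀ * N).det * ∑ i, z i * (G i + ∑ b, N i b * X b) =
      schur M N z G + ∑ a, yv M N z a * e a := by
  rw [schur_eq]
  have h1 : ∀ a, e a = (∑ k, M k a * G k) + ∑ b, (Mᵀ * N) a b * X b := by
    intro a
    rw [h]
    have : ∀ i, M i a * (G i + ∑ b, N i b * X b) = M i a * G i + ∑ b, (M i a * N i b) * X b := by
      intro i
      rw [mul_add, Finset.mul_sum]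
      congr 1
      refine Finset.sum_congr rfl fun b _ => ?_
      ring
    rw [Finset.sum_congr rfl fun i _ => this i, Finset.sum_add_distrib, Finset.sum_comm]
    congr 1
    refine Finset.sum_congr rfl fun b _ => ?_
    rw [← Finset.sum_mul]
    rfl
  have h2 : ∑ a, yv M N z a * e a = (∑ a, yv M N z a * ∑ k, M k a * G k) +
      ∑ a, yv M N z a * ∑ b, (Mᵀ * N) a b * X b := by
    rw [← Finset.sum_add_distrib]
    refine Finset.sum_congr rfl fun a _ => ?_
    rw [h1, mul_add]
  have h3 : ∑ a, yv M N z a * ∑ b, (Mᵀ * N) a b * X b =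
      (Mᵀ * N).det * ∑ b, (∑ i, z i * N i b) * X b := by
    have e1 : ∀ a, yv M N z a * ∑ b, (Mᵀ * N) a b * X b =
        ∑ b, (yv M N z a * (Mᵀ * N) a b) * X b := by
      intro a
      rw [Finset.mul_sum]
      refine Finset.sum_congr rfl fun b _ => ?_
      ring
    rw [Finset.sum_congr rfl fun a _ => e1 a, Finset.sum_comm, Finset.mul_sum]
    refine Finset.sum_congr rfl fun b _ => ?_
    rw [← Finset.sum_mul, ← mul_assoc]
    congr 1
    have e2 : ∀ a, yv M N z a * (Mᵀ * N) a b =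
        ∑ b', (∑ i, z i * N i b') * ((Mᵀ * N).adjugate b' a * (Mᵀ * N) a b) := by
      intro a
      rw [yv, Finset.sum_mul]
      refine Finset.sum_congr rfl fun b' _ => ?_
      ring
    rw [Finset.sum_congr rfl fun a _ => e2 a, Finset.sum_comm]
    have e3 : ∀ b', ∑ a, (∑ i, z i * N i b') * ((Mᵀ * N).adjugate b' a * (Mᵀ * N) a b) =
        (∑ i, z i * N i b') * ((Mᵀ * N).det * (1 : Matrix D D ℂ) b' b) := by
      intro b'
      rw [← Finset.mul_sum]
      congr 1
      have := congrFun (congrFun (Matrix.adjugate_mul (Mᵀ * N)) b') b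
      rw [Matrix.mul_apply] at this
      rw [this]
      rfl
    rw [Finset.sum_congr rfl fun b' _ => e3 b', Finset.sum_eq_single b]
    · rw [Matrix.one_apply_eq]
      ring
    · intro b' _ hb
      rw [Matrix.one_apply_ne hb]
      ring
    · intro hb
      exact absurd (Finset.mem_univ b) hb
  have h4 : ∑ i, z i * (G i + ∑ b, N i b * X b) =
      (∑ i, z i * G i) + ∑ b, (∑ i, z i * N i b) * X b := by
    have : ∀ i, z i * (G i + ∑ b, N i b * X b) = z i * G i + ∑ b, (z i * N i b) * X b := by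
      intro i
      rw [mul_add, Finset.mul_sum]
      congr 1
      refine Finset.sum_congr rfl fun b _ => ?_
      ring
    rw [Finset.sum_congr rfl fun i _ => this i, Finset.sum_add_distrib, Finset.sum_comm]
    congr 1
    refine Finset.sum_congr rfl fun b _ => ?_
    rw [← Finset.sum_mul]
  rw [h4, h2, h3]
  ring

end alg

section mu
variable (c : CM) {r D : ℕ} {V : Fin D → WeierstrassCurve Qb} {W : Fin r → WeierstrassCurve Qb}
  {Ω : Type} [Field Ω] [Algebra Qb Ω] (E : WeierstrassCurve Qb)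

theorem cx_at {N : Matrix (Fin r) (Fin D) (ℤ × ℤ)} {E : WeierstrassCurve Qb} {i : Fin r}
    (hi : W i = E) (b : Fin D) : c.ord.cx E (N i b) = cx c W N i b := by
  subst hi
  rfl

theorem exists_mu (lam : E.toAffine.Point →+ ℂ)
    (hlam : ∀ P, lam ((c.w E).k0 P) = c.ω E * lam P) :
    ∃ μ : (E⁄Ω).toAffine.Point →+ ℂ, (∀ P, μ ((c.w E).f Ω P) = c.ω E * μ P) ∧
      ∀ p, μ (constPt Ω p) = lam p := by
  have hinj : Function.Injective (constHom Ω E) := by
    intro p q h
    rw [constHom_apply, constHom_apply] at h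
    exact constPt_inj h
  let e := AddMonoidHom.ofInjective hinj
  have he : ∀ p, e.symm ⟨constHom Ω E p, ⟨p, rfl⟩⟩ = p := by
    intro p
    rw [AddEquiv.symm_apply_eq]
    rfl
  have hS : ∀ x ∈ (constHom Ω E).range, (c.w E).f Ω x ∈ (constHom Ω E).range := by
    rintro _ ⟨p, rfl⟩
    refine ⟨(c.w E).k0 p, ?_⟩
    rw [constHom_apply, constHom_apply]
    exact ((c.w E).const Ω p).symm
  obtain ⟨μ, h1, h2⟩ := exists_ext ((c.w E).f Ω) (c.quad E Ω) (c.trace E) (c.norm E)
    (constHom Ω E).range hS (lam.comp e.symm.toAddMonoidHom) (by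
      rintro ⟨_, ⟨p, rfl⟩⟩
      have h3 : (⟨(c.w E).f Ω (constHom Ω E p), hS _ ⟨p, rfl⟩⟩ : (constHom Ω E).range) =
          ⟨constHom Ω E ((c.w E).k0 p), ⟨_, rfl⟩⟩ := by
        apply Subtype.ext
        show (c.w E).f Ω (constHom Ω E p) = constHom Ω E ((c.w E).k0 p)
        rw [constHom_apply, constHom_apply]
        exact (c.w E).const Ω p
      rw [h3]
      show lam (e.symm _) = _ * lam (e.symm _)
      rw [he, he, hlam])
    (fun h => ⟨(c.real E h).1, (c.real E h).2 Ω⟩)
  refine ⟨μ, h1, fun p => ?_⟩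
  have h3 := h2 ⟨constHom Ω E p, ⟨p, rfl⟩⟩
  have h4 : (lam.comp e.symm.toAddMonoidHom) ⟨constHom Ω E p, ⟨p, rfl⟩⟩ = lam p := by
    show lam (e.symm _) = _
    rw [he]
  rw [← h4, ← h3]
  show μ (constPt Ω p) = μ (constHom Ω E p)
  rw [constHom_apply]

variable {E} {μ : (E⁄Ω).toAffine.Point →+ ℂ} (hμ : ∀ P, μ ((c.w E).f Ω P) = c.ω E * μ P)
include hμ

theorem mu_sm (p : ℤ × ℤ) (P : (E⁄Ω).toAffine.Point) :
    μ (sm (c.w E) Ω p P) = c.ord.cx E p * μ P := by
  rw [sm_apply, map_add, map_zsmul, map_zsmul, hμ]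
  simp only [LibAC84H.Ord.cx, zsmul_eq_mul, CM.ord]
  ring

theorem mu_mxC {N : Matrix (Fin r) (Fin D) (ℤ × ℤ)} (x : ∀ a, ((V a)⁄Ω).toAffine.Point)
    {i : Fin r} (hi : W i = E) : μ (tr (W i) E (mxC c.w W N x i)) =
      ∑ b, cx c W N i b * μ (tr (V b) E (x b)) := by
  unfold mxC
  rw [tr_sum, map_sum]
  refine Finset.sum_congr rfl fun b _ => ?_
  rw [tr_sm, tr_tr hi, mu_sm c hμ, cx_at c hi]

end mu

section rel
variable (c : CM) {r D : ℕ} {V : Fin D → WeierstrassCurve Qb} {W : Fin r → WeierstrassCurve Qb}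
  {Ω : Type} [Field Ω] [Algebra Qb Ω] {E : WeierstrassCurve Qb}
  {μ : (E⁄Ω).toAffine.Point →+ ℂ} (hμ : ∀ P, μ ((c.w E).f Ω P) = c.ω E * μ P)
  {lam : E.toAffine.Point →+ ℂ} (hlam : ∀ p, μ (constPt Ω p) = lam p)
include hμ hlam

theorem mu_y {N : Matrix (Fin r) (Fin D) (ℤ × ℤ)} (g : Pts W)
    (x : ∀ a, ((V a)⁄Ω).toAffine.Point) {i : Fin r} (hi : W i = E) :
    μ (tr (W i) E (constPt Ω (g i) + mxC c.w W N x i)) =
      lam (trk (W i) E (g i)) + ∑ b, cx c W N i b * μ (tr (V b) E (x b)) := by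
  rw [tr_add, map_add, mu_mxC c hμ x hi, ← constPt_tr, hlam]

/-- the value of the functional -/
theorem value [E.IsElliptic] {N : Matrix (Fin r) (Fin D) (ℤ × ℤ)} (g : Pts W)
    (x : ∀ a, ((V a)⁄Ω).toAffine.Point) {s : Fin r → ℤ} (hs : ∀ i, W i ≠ E → s i = 0) :
    μ ((lcC c.w W E (fun i => (s i, 0))).f Ω (fun i => constPt Ω (g i) + mxC c.w W N x i)) =
      ∑ i, (s i : ℂ) * (lam (trk (W i) E (g i)) +
        ∑ b, cx c W N i b * μ (tr (V b) E (x b))) := by
  rw [lcC_apply, map_sum]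
  refine Finset.sum_congr rfl fun i _ => ?_
  rw [mu_sm c hμ]
  have h1 : c.ord.cx E (s i, 0) = (s i : ℂ) := by
    simp [LibAC84H.Ord.cx]
  rw [h1]
  by_cases hi : W i = E
  · rw [mu_y c hμ hlam g x hi]
  · rw [hs i hi]
    simp

/-- the equations -/
theorem relation (hV : ∀ a, (V a).IsElliptic) {M N : Matrix (Fin r) (Fin D) (ℤ × ℤ)}
    (hM : MatC c V W M) (hN : MatC c V W N) (g : Pts W)
    (x : ∀ a, ((V a)⁄Ω).toAffine.Point) {η : ∀ a, ((V a)⁄Ω).toAffine.Point}
    (h : ∀ a, haveI := hV a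
      (lcC c.w W (V a) (fun i => M i a)).f Ω (fun i => constPt Ω (g i) + mxC c.w W N x i) = η a)
    (a : Fin D) : μ (tr (V a) E (η a)) =
      ∑ i, cx c W M i a * (lam (trk (W i) E (g i)) +
        ∑ b, cx c W N i b * μ (tr (V b) E (x b))) := by
  have := hV a
  by_cases ha : V a = E
  · rw [← h a, lcC_apply, tr_sum, map_sum]
    refine Finset.sum_congr rfl fun i _ => ?_
    rw [tr_sm, tr_tr ha, mu_sm c hμ]
    by_cases hi : W i = E
    · rw [mu_y c hμ hlam g x hi, cx_at c hi]
    · have h1 : M i a = 0 := (hM i a).1 fun h' => hi (h'.symm.trans ha)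
      have h2 : cx c W M i a = 0 := by
        rw [cx_eq, LibAC84H.toC_apply, h1, LibAC84H.Ord.cx_zero]
      rw [h1, h2, LibAC84H.Ord.cx_zero, zero_mul, zero_mul]
  · rw [tr_ne ha, map_zero]
    symm
    refine Finset.sum_eq_zero fun i _ => ?_
    by_cases hi : V a = W i
    · have hi' : W i ≠ E := fun h' => ha (hi.trans h')
      rw [trk_ne hi', map_zero, zero_add]
      have h1 : ∑ b, cx c W N i b * μ (tr (V b) E (x b)) = 0 := by
        refine Finset.sum_eq_zero fun b _ => ?_
        by_cases hb : V b = W i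
        · rw [tr_ne (fun h' => hi' (hb.symm.trans h')), map_zero, mul_zero]
        · rw [cx_eq, LibAC84H.toC_apply, (hN i b).1 hb, LibAC84H.Ord.cx_zero, zero_mul]
      rw [h1, mul_zero]
    · rw [cx_eq, LibAC84H.toC_apply, (hM i a).1 hi, LibAC84H.Ord.cx_zero, zero_mul]

end rel

section main
variable (c : CM) {r D : ℕ} {V : Fin D → WeierstrassCurve Qb} {W : Fin r → WeierstrassCurve Qb}
  {F : Type} [Field F] [Algebra Qb F] {ξ : ∀ a, ((V a)⁄F).toAffine.Point}

/-- the constants -/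
noncomputable def qc (V : Fin D → WeierstrassCurve Qb) (M : Matrix (Fin r) (Fin D) (ℤ × ℤ))
    (g : Pts W) (a : Fin D) : (V a).toAffine.Point :=
  ∑ i, smk (c.w (V a)) (M i a) (trk (W i) (V a) (g i))

theorem emb_eq (hV : ∀ a, (V a).IsElliptic) {M N : Matrix (Fin r) (Fin D) (ℤ × ℤ)}
    (hM : MatC c V W M) (g : Pts W) {Ω : Type} [Field Ω] [Algebra Qb Ω]
    (η : ∀ a, ((V a)⁄Ω).toAffine.Point) :
    LibCV66.Emb (fun a => have := hV a; lcC c.w W (V a) (fun i => M i a)) η
      (linC c.w (Algebra.ofId Qb F) (fun i => Hm.id (W i)) ξ N g (org W)).z =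
    {s : F →ₐ[Qb] Ω | ∀ a, mxC c.w V (prodM c V M N) (fun b => mp s (ξ b)) a =
      η a + constPt Ω ((-qc c V M g a : (V a).toAffine.Point))} := by
  ext s
  show (∀ a, _ = _) ↔ ∀ a, _ = _
  refine forall_congr' fun a => ?_
  have := hV a
  have h1 : mp s ((lcC c.w W (V a) (fun i => M i a)).f F
      (linC c.w (Algebra.ofId Qb F) (fun i => Hm.id (W i)) ξ N g (org W)).z) =
      constPt Ω (qc c V M g a) + mxC c.w V (prodM c V M N) (fun b => mp s (ξ b)) a := by
    rw [← (lcC c.w W (V a) (fun i => M i a)).nat, linC_z]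
    have h2 : (fun i => mp s (constPt F (g i) + mxC c.w W N ξ i)) =
        (fun i => (constPt Ω (g i) : ((W i)⁄Ω).toAffine.Point)) +
          mxC c.w W N (fun b => mp s (ξ b)) := by
      funext i
      rw [map_add, mp_mxC, mp_const]
      rfl
    rw [h2, map_add, lcC_mxC c hV hM, lcC_apply]
    congr 1
    unfold qc
    rw [← constHom_apply, map_sum]
    refine Finset.sum_congr rfl fun i _ => ?_
    rw [← constPt_tr, sm_const, constHom_apply]
  have h3 : constPt Ω (-qc c V M g a) = -(constPt Ω (qc c V M g a) : ((V a)⁄Ω).toAffine.Point) := by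
    rw [← constHom_apply, map_neg, constHom_apply]
  show mp s ((lcC c.w W (V a) (fun i => M i a)).f F
      (linC c.w (Algebra.ofId Qb F) (fun i => Hm.id (W i)) ξ N g (org W)).z) = η a ↔ _
  rw [h1, h3]
  constructor
  · intro h
    rw [← h]
    abel
  · intro h
    rw [h]
    abel

/-- the number of embeddings -/
theorem card_emb (hV : ∀ a, (V a).IsElliptic) (hξ : IsGen 0 (Algebra.ofId Qb F) V ξ)
    {M N : Matrix (Fin r) (Fin D) (ℤ × ℤ)} (hM : MatC c V W M) (hN : MatC c V W N) (g : Pts W)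
    {Ω : Type} [Field Ω] [Algebra Qb Ω] [IsAlgClosed Ω] {η : ∀ a, ((V a)⁄Ω).toAffine.Point}
    (hη : LibCV66.Gn η) (hfin : (LibCV66.Emb (fun a => have := hV a;
      lcC c.w W (V a) (fun i => M i a)) η
      (linC c.w (Algebra.ofId Qb F) (fun i => Hm.id (W i)) ξ N g (org W)).z).Finite) :
    (hfin.toFinset.card : ℝ) = Complex.normSq ((cx c W M).transpose * cx c W N).det := by
  have h1 := (count c hV hξ (LibCV66.gn_add_const hη (fun a => -qc c V M g a))
    (blk_prod c hM hN)).2
  rw [cx_prod c hM, ← emb_eq c hV hM g η, Set.ncard_eq_toFinset_card _ hfin] at h1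
  exact h1

/-- the sum of the values of the functional -/
theorem sum_value (hV : ∀ a, (V a).IsElliptic) (hξ : IsGen 0 (Algebra.ofId Qb F) V ξ)
    {M N : Matrix (Fin r) (Fin D) (ℤ × ℤ)} (hM : MatC c V W M) (hN : MatC c V W N) (g : Pts W)
    {Ω : Type} [Field Ω] [Algebra Qb Ω] [IsAlgClosed Ω] {η : ∀ a, ((V a)⁄Ω).toAffine.Point}
    (hη : LibCV66.Gn η) (hfin : (LibCV66.Emb (fun a => have := hV a;
      lcC c.w W (V a) (fun i => M i a)) η
      (linC c.w (Algebra.ofId Qb F) (fun i => Hm.id (W i)) ξ N g (org W)).z).Finite)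
    {E : WeierstrassCurve Qb} [E.IsElliptic] {μ : (E⁄Ω).toAffine.Point →+ ℂ}
    (hμ : ∀ P, μ ((c.w E).f Ω P) = c.ω E * μ P) {lam : E.toAffine.Point →+ ℂ}
    (hlam : ∀ p, μ (constPt Ω p) = lam p) {s : Fin r → ℤ} (hs : ∀ i, W i ≠ E → s i = 0) :
    μ (∑ σ ∈ hfin.toFinset, mp σ ((lcC c.w W E (fun i => (s i, 0))).f F
      (linC c.w (Algebra.ofId Qb F) (fun i => Hm.id (W i)) ξ N g (org W)).z)) =
      conj ((cx c W M).transpose * cx c W N).det *
        (schur (cx c W M) (cx c W N) (fun i => (s i : ℂ)) (fun i => lam (trk (W i) E (g i))) +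
          ∑ a, yv (cx c W M) (cx c W N) (fun i => (s i : ℂ)) a * μ (tr (V a) E (η a))) := by
  set d := ((cx c W M).transpose * cx c W N).det with hd
  set R := schur (cx c W M) (cx c W N) (fun i => (s i : ℂ)) (fun i => lam (trk (W i) E (g i))) +
          ∑ a, yv (cx c W M) (cx c W N) (fun i => (s i : ℂ)) a * μ (tr (V a) E (η a)) with hR
  have hcard := card_emb c hV hξ hM hN g hη hfin
  have h1 : ∀ σ ∈ hfin.toFinset, d * μ (mp σ ((lcC c.w W E (fun i => (s i, 0))).f F
      (linC c.w (Algebra.ofId Qb F) (fun i => Hm.id (W i)) ξ N g (org W)).z)) = R := by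
    intro σ hσ
    rw [Set.Finite.mem_toFinset] at hσ
    have h2 : (fun i => mp σ ((linC c.w (Algebra.ofId Qb F) (fun i => Hm.id (W i)) ξ N g
        (org W)).z i)) = fun i => constPt Ω (g i) + mxC c.w W N (fun b => mp σ (ξ b)) i := by
      rw [linC_z]
      funext i
      rw [map_add, mp_mxC, mp_const]
    rw [← (lcC c.w W E (fun i => (s i, 0))).nat, h2, value c hμ hlam g _ hs]
    refine alg (cx c W M) (cx c W N) (fun i => (s i : ℂ)) (fun i => lam (trk (W i) E (g i)))
      (fun b => μ (tr (V b) E (mp σ (ξ b)))) (fun a => μ (tr (V a) E (η a))) ?_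
    intro a
    refine relation c hμ hlam hV hM hN g _ (fun a => ?_) a
    have := hV a
    have h3 : mp σ ((lcC c.w W (V a) (fun i => M i a)).f F
      (linC c.w (Algebra.ofId Qb F) (fun i => Hm.id (W i)) ξ N g (org W)).z) = η a := hσ a
    rw [← (lcC c.w W (V a) (fun i => M i a)).nat, h2] at h3
    exact h3
  rw [map_sum]
  by_cases h0 : d = 0
  · have h3 : hfin.toFinset.card = 0 := by
      have : (hfin.toFinset.card : ℝ) = 0 := by
        rw [hcard, ← hd, h0, map_zero]
      exact_mod_cast this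
    rw [Finset.card_eq_zero] at h3
    rw [h3, Finset.sum_empty, h0, map_zero, zero_mul]
  · have h3 : ∀ σ ∈ hfin.toFinset, μ (mp σ ((lcC c.w W E (fun i => (s i, 0))).f F
      (linC c.w (Algebra.ofId Qb F) (fun i => Hm.id (W i)) ξ N g (org W)).z)) = R / d := by
      intro σ hσ
      rw [eq_div_iff h0, mul_comm]
      exact h1 σ hσ
    rw [Finset.sum_congr rfl h3, Finset.sum_const, nsmul_eq_mul]
    have h4 : (hfin.toFinset.card : ℂ) = d * conj d := by
      rw [Complex.mul_conj, ← hcard]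
      norm_cast
    rw [h4]
    field_simp

/-- **The converse.** -/
theorem convC (hW : ∀ i, (W i).IsElliptic) (hV : ∀ a, (V a).IsElliptic)
    (hξ : IsGen 0 (Algebra.ofId Qb F) V ξ) (J : Type) [Fintype J] (m : J → ℤ)
    (N : J → Matrix (Fin r) (Fin D) (ℤ × ℤ)) (g : J → Pts W) (hN : ∀ j, MatC c V W (N j))
    (htor : IsOfFinAddOrder (∑ j, m j • clC c.w (Algebra.ofId Qb F) D (fun i => Hm.id (W i)) ξ
      (org W) (N j) (g j))) :
    (∀ M, MatC c V W M →
      ∑ j, m j * Complex.normSq ((cx c W M).transpose * cx c W (N j)).det = 0) ∧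
    ∀ M, MatC c V W M → ∀ (E : WeierstrassCurve Qb) (s : Fin r → ℤ),
      (∀ i, W i ≠ E → s i = 0) → ∀ lam : E.toAffine.Point →+ ℂ,
      (∀ P, lam ((c.w E).k0 P) = c.ω E * lam P) →
      ∑ j, m j * (conj ((cx c W M).transpose * cx c W (N j)).det *
        ((Matrix.fromCols (cx c W M) (Matrix.replicateCol Unit fun i => (s i : ℂ))).transpose *
          Matrix.fromCols (cx c W (N j))
            (Matrix.replicateCol Unit fun i => lam (trk (W i) E (g j i)))).det) = 0 := by
  have hF : FunF Qb D F := (LibCV66.gen_all hξ).2.2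
  let Ω := AlgebraicClosure F
  let ι : F →ₐ[Qb] Ω := IsScalarTower.toAlgHom Qb F Ω
  let η : ∀ a, ((V a)⁄Ω).toAffine.Point := fun a => mp ι (ξ a)
  have hη : LibCV66.Gn η := (LibCV66.gn_map ι ξ).2 (LibCV66.gen_all hξ).1
  have hmk : IsOfFinAddOrder (QuotientAddGroup.mk (∑ j, m j • cyc (linC c.w (Algebra.ofId Qb F)
      (fun i => Hm.id (W i)) ξ (N j) (g j) (org W))) : CH W (pt0 Qb) D) := by
    have h1 : (QuotientAddGroup.mk (∑ j, m j • cyc (linC c.w (Algebra.ofId Qb F)
        (fun i => Hm.id (W i)) ξ (N j) (g j) (org W))) : CH W (pt0 Qb) D) =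
        ∑ j, m j • clC c.w (Algebra.ofId Qb F) D (fun i => Hm.id (W i)) ξ
          (org W) (N j) (g j) := by
      have h2 := map_sum (QuotientAddGroup.mk' (RatEq W (pt0 Qb) D)) (fun j => m j •
        cyc (linC c.w (Algebra.ofId Qb F) (fun i => Hm.id (W i)) ξ (N j) (g j) (org W)))
        Finset.univ
      refine h2.trans (Finset.sum_congr rfl fun j _ => ?_)
      rw [map_zsmul]
      rfl
    rw [h1]
    exact htor
  have main : ∀ M, MatC c V W M → ∀ E : WeierstrassCurve Qb, E.IsElliptic → ∀ s : Fin r → ℤ,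
      (∀ i, W i ≠ E → s i = 0) →
      (∑ j, m j * Complex.normSq ((cx c W M).transpose * cx c W (N j)).det = 0) ∧
      ∀ μ : (E⁄Ω).toAffine.Point →+ ℂ, (∀ P, μ ((c.w E).f Ω P) = c.ω E * μ P) →
      ∀ lam : E.toAffine.Point →+ ℂ, (∀ p, μ (constPt Ω p) = lam p) →
      ∑ j, m j * (conj ((cx c W M).transpose * cx c W (N j)).det *
        (schur (cx c W M) (cx c W (N j)) (fun i => (s i : ℂ))
          (fun i => lam (trk (W i) E (g j i))) +
          ∑ a, yv (cx c W M) (cx c W (N j)) (fun i => (s i : ℂ)) a *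
            μ (tr (V a) E (η a)))) = 0 := by
    intro M hM E hE s hs
    have hfin := fun j => LibCV66.emb_finite hV (fun a => have := hV a;
      lcC c.w W (V a) (fun i => M i a)) hη hF
      (linC c.w (Algebra.ofId Qb F) (fun i => Hm.id (W i)) ξ (N j) (g j) (org W)).z
    have h1 := LibCV66.phi_torsion hW hV hE (fun a => have := hV a;
      lcC c.w W (V a) (fun i => M i a)) (lcC c.w W E (fun i => (s i, 0))) hη hmk
    rw [map_sum] at h1
    refine ⟨?_, ?_⟩
    · have h3 := (AddMonoidHom.fst ℤ (E⁄Ω).toAffine.Point).isOfFinAddOrder h1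
      have h4 := int_zero h3
      rw [map_sum] at h4
      have h5 : ∑ j, m j * ((hfin j).toFinset.card : ℤ) = 0 := by
        rw [← h4]
        refine Finset.sum_congr rfl fun j _ => ?_
        rw [map_zsmul, AddMonoidHom.coe_fst, Prod.smul_fst, smul_eq_mul,
          phi_fst hV _ _ hη hF]
      have h6 : ∑ j, (m j : ℝ) * ((hfin j).toFinset.card : ℝ) = 0 := by exact_mod_cast h5
      rw [← h6]
      refine Finset.sum_congr rfl fun j _ => ?_
      rw [card_emb c hV hξ hM (hN j) (g j) hη (hfin j)]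
    · intro μ hμ lam hlam
      have h3 := (AddMonoidHom.snd ℤ (E⁄Ω).toAffine.Point).isOfFinAddOrder h1
      have h4 := μ.isOfFinAddOrder h3
      have h5 : μ (AddMonoidHom.snd ℤ (E⁄Ω).toAffine.Point (∑ j, LibCV66.Phi (pt0 Qb)
          (fun a => have := hV a; lcC c.w W (V a) (fun i => M i a))
          (lcC c.w W E (fun i => (s i, 0))) η (m j • cyc (linC c.w (Algebra.ofId Qb F)
            (fun i => Hm.id (W i)) ξ (N j) (g j) (org W))))) = 0 := by
        obtain ⟨n, hn, h6⟩ := isOfFinAddOrder_iff_nsmul_eq_zero.1 h4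
        rw [nsmul_eq_mul] at h6
        rcases mul_eq_zero.1 h6 with h7 | h7
        · exfalso
          have : n = 0 := by exact_mod_cast h7
          omega
        · exact h7
      rw [map_sum, map_sum] at h5
      rw [← h5]
      refine Finset.sum_congr rfl fun j _ => ?_
      rw [map_zsmul, AddMonoidHom.coe_snd, Prod.smul_snd, phi_snd hV _ _ hη hF, map_zsmul,
        sum_value c hV hξ hM (hN j) (g j) hη (hfin j) hμ hlam hs, zsmul_eq_mul]
  have hhom : ∀ M, MatC c V W M →
      ∑ j, m j * Complex.normSq ((cx c W M).transpose * cx c W (N j)).det = 0 := fun M hM =>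
    (main M hM (WeierstrassCurve.ofJ 0) inferInstance (fun _ => 0) fun _ _ => rfl).1
  refine ⟨hhom, ?_⟩
  intro M hM E s hs lam hlam
  simp only [LibAC84H.conj_border]
  by_cases hE : ∃ i, W i = E
  · obtain ⟨i₀, hi₀⟩ := hE
    have hEe : E.IsElliptic := by rw [← hi₀]; exact hW i₀
    obtain ⟨μ, hμ, hμ'⟩ := exists_mu (Ω := Ω) c E lam hlam
    have h1 := (main M hM E hEe s hs).2 μ hμ lam hμ'
    have h2 : ∑ j, (m j : ℂ) * (conj ((cx c W M).transpose * cx c W (N j)).det *
        ∑ a, yv (cx c W M) (cx c W (N j)) (fun i => (s i : ℂ)) a * μ (tr (V a) E (η a))) = 0 := by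
      have h3 : ∀ j, (m j : ℂ) * (conj ((cx c W M).transpose * cx c W (N j)).det *
          ∑ a, yv (cx c W M) (cx c W (N j)) (fun i => (s i : ℂ)) a * μ (tr (V a) E (η a))) =
          ∑ a, ((m j : ℂ) * (conj ((cx c W M).transpose * cx c W (N j)).det *
            yv (cx c W M) (cx c W (N j)) (fun i => (s i : ℂ)) a)) * μ (tr (V a) E (η a)) := by
        intro j
        rw [Finset.mul_sum, Finset.mul_sum]
        refine Finset.sum_congr rfl fun a _ => ?_
        ring
      rw [Finset.sum_congr rfl fun j _ => h3 j, Finset.sum_comm]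
      refine Finset.sum_eq_zero fun a _ => ?_
      rw [← Finset.sum_mul]
      by_cases ha : V a = E
      · have h4 := deriv_zero (o := c.ord) (ρ := W) (τ := V) Finset.univ m N
          (fun j _ => blk_of_mat c (hN j)) (fun M hM => hhom M (mat_of_blk c hM))
          (blk_of_mat c hM) s hs ha
        rw [cx_eq]
        simp only [cx_eq]
        rw [h4, zero_mul]
      · rw [tr_ne ha, map_zero, mul_zero]
    have h5 : ∑ j, (m j : ℂ) * (conj ((cx c W M).transpose * cx c W (N j)).det *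
        schur (cx c W M) (cx c W (N j)) (fun i => (s i : ℂ))
          (fun i => lam (trk (W i) E (g j i)))) +
        ∑ j, (m j : ℂ) * (conj ((cx c W M).transpose * cx c W (N j)).det *
        ∑ a, yv (cx c W M) (cx c W (N j)) (fun i => (s i : ℂ)) a * μ (tr (V a) E (η a))) = 0 := by
      rw [← Finset.sum_add_distrib, ← h1]
      refine Finset.sum_congr rfl fun j _ => ?_
      ring
    rw [h2, add_zero] at h5
    exact h5
  · refine Finset.sum_eq_zero fun j _ => ?_
    have h1 : ∀ i, s i = 0 := fun i => hs i fun h => hE ⟨i, h⟩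
    have h2 : schur (cx c W M) (cx c W (N j)) (fun i => (s i : ℂ))
          (fun i => lam (trk (W i) E (g j i))) = 0 := by
      unfold LibAC84H.schur
      simp [h1]
    rw [h2, mul_zero, mul_zero]

end main

end Pool.Agent.LibAC84C
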