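import Pool.Agent.LibAC84C.Geo

/-!
The number of solutions of `φ x = η`.
-/

open WeierstrassCurve Pool.Agent.LibBH2 Pool.Agent.LibIG50 Pool.Agent.LibCHd Pool.Agent.LibGG
  Pool.Agent.LibAC34 Pool.Agent.LibAF11
open scoped Classical ComplexConjugate

namespace Pool.Agent.LibAC84C

section phi
open Pool.Agent.LibCV66
variable {k : Type} [Field k] [CharZero k] {r D : ℕ} {W : Fin r → WeierstrassCurve k} {Y : Prj k}
  {V : Fin D → WeierstrassCurve k} {E : WeierstrassCurve k} {Ω : Type} [Field Ω] [Algebra k Ω]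
  [IsAlgClosed Ω] (hV : ∀ a, (V a).IsElliptic) (β : ∀ a, PH W (V a)) (γ : PH W E)
  {η : ∀ a, ((V a)⁄Ω).toAffine.Point} (hη : Gn η) {F : Type} [Field F] [Algebra k F]
  (hF : FunF k D F) (u : Pnt W Y F)
include hV hη hF

theorem phi_fst : (Phi Y β γ η (cyc u)).1 = ((emb_finite hV β hη hF u.z).toFinset.card : ℤ) := by
  rw [phi_cyc hV β γ hη hF u, finsum_mem_eq_finite_toFinset_sum _ (emb_finite hV β hη hF u.z),
    Prod.fst_sum]
  simp

theorem phi_snd : (Phi Y β γ η (cyc u)).2 =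
    ∑ s ∈ (emb_finite hV β hη hF u.z).toFinset, mp s (γ.f F u.z) := by
  rw [phi_cyc hV β γ hη hF u, finsum_mem_eq_finite_toFinset_sum _ (emb_finite hV β hη hF u.z),
    Prod.snd_sum]

end phi

theorem int_zero {x : ℤ} (h : IsOfFinAddOrder x) : x = 0 := by
  obtain ⟨n, hn, h1⟩ := isOfFinAddOrder_iff_nsmul_eq_zero.1 h
  rw [nsmul_eq_mul] at h1
  rcases mul_eq_zero.1 h1 with h2 | h2
  · exfalso
    have h3 : n = 0 := by exact_mod_cast h2
    omega
  · exact h2

/-- the projections -/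
noncomputable def pr {k : Type} [Field k] {D : ℕ} (V : Fin D → WeierstrassCurve k) (a : Fin D) :
    LibCV66.PH V (V a) where
  f F _ _ := AddMonoidHom.mk' (fun P => P a) fun _ _ => rfl
  nat _ _ _ _ _ _ _ _ := rfl
  sp _ _ _ _ _ _ h := h a

section count
variable (c : CM) {D : ℕ} {V : Fin D → WeierstrassCurve Qb} (hV : ∀ a, (V a).IsElliptic)
  {F : Type} [Field F] [Algebra Qb F] {ξ : ∀ a, ((V a)⁄F).toAffine.Point}
  (hξ : IsGen 0 (Algebra.ofId Qb F) V ξ) {Ω : Type} [Field Ω] [Algebra Qb Ω] [IsAlgClosed Ω]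
  {η : ∀ a, ((V a)⁄Ω).toAffine.Point} (hη : LibCV66.Gn η)
include hV hξ hη

/-- **The number of solutions.** -/
theorem count {φ : Matrix (Fin D) (Fin D) (ℤ × ℤ)} (hφ : MatC c V V φ) :
    {s : F →ₐ[Qb] Ω | ∀ a, mxC c.w V φ (fun b => mp s (ξ b)) a = η a}.Finite ∧
    (({s : F →ₐ[Qb] Ω | ∀ a, mxC c.w V φ (fun b => mp s (ξ b)) a = η a}.ncard : ℕ) : ℝ) =
      Complex.normSq (cx c V φ).det := by
  have hF : FunF Qb D F := (LibCV66.gen_all hξ).2.2
  let E₀ : WeierstrassCurve Qb := WeierstrassCurve.ofJ 0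
  let γ : LibCV66.PH V E₀ := lcC c.w V E₀ (fun _ => 0)
  set S : Matrix (Fin D) (Fin D) (ℤ × ℤ) → Set (F →ₐ[Qb] Ω) := fun φ =>
    LibCV66.Emb (pr V) η (linC c.w (Algebra.ofId Qb F) (fun i => Hm.id (V i)) ξ φ 0 (org V)).z
    with hS
  have hfin : ∀ φ, (S φ).Finite := fun φ =>
    LibCV66.emb_finite hV (pr V) hη hF _
  have hmem : ∀ φ s, s ∈ S φ ↔ ∀ a, mxC c.w V φ (fun b => mp s (ξ b)) a = η a := by
    intro φ s
    have h1 : ∀ a, mp s ((pr V a).f F
        (linC c.w (Algebra.ofId Qb F) (fun i => Hm.id (V i)) ξ φ 0 (org V)).z) =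
        mxC c.w V φ (fun b => mp s (ξ b)) a := by
      intro a
      rw [linC_z, ← mp_mxC]
      show mp s (constPt F ((0 : Pts V) a) + mxC c.w V φ ξ a) = mp s (mxC c.w V φ ξ a)
      have h0 : (constPt F ((0 : Pts V) a) : ((V a)⁄F).toAffine.Point) = 0 := rfl
      rw [h0, zero_add]
    constructor
    · intro h a
      rw [← h1]
      exact h a
    · intro h a
      rw [h1]
      exact h a
  have hset : ∀ φ, S φ = {s : F →ₐ[Qb] Ω | ∀ a, mxC c.w V φ (fun b => mp s (ξ b)) a = η a} :=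
    fun φ => Set.ext (hmem φ)
  -- the function
  set f : Matrix (Fin D) (Fin D) (ℤ × ℤ) → ℚ := fun φ => ((LibCV66.Phi (pt0 Qb) (pr V) γ η
    (cyc (linC c.w (Algebra.ofId Qb F) (fun i => Hm.id (V i)) ξ φ 0 (org V)))).1 : ℤ) with hf
  have hfS : ∀ φ, f φ = ((S φ).ncard : ℚ) := by
    intro φ
    rw [hf]
    simp only
    rw [phi_fst hV (pr V) γ hη hF, Set.ncard_eq_toFinset_card _ (hfin φ)]
    rfl
  -- relations in the Chow group
  have htor : ∀ x : Cyc D (pt0 Qb), (QuotientAddGroup.mk x : CH V (pt0 Qb) D) = 0 →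
      (LibCV66.Phi (pt0 Qb) (pr V) γ η x).1 = 0 := by
    intro x hx
    have h1 := LibCV66.phi_torsion (Ω := Ω) hV hV (inferInstance : E₀.IsElliptic) (pr V) γ hη
      (c := x) (by rw [hx]; exact IsOfFinAddOrder.zero)
    exact int_zero ((AddMonoidHom.fst ℤ (E₀⁄Ω).toAffine.Point).isOfFinAddOrder h1)
  have hclC : ∀ φ, clC c.w (Algebra.ofId Qb F) (0 + D) (fun i => Hm.id (V i)) ξ (org V) φ 0 =
      (QuotientAddGroup.mk (cyc (linC c.w (Algebra.ofId Qb F) (fun i => Hm.id (V i)) ξ φ 0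
        (org V))) : CH V (pt0 Qb) (0 + D)) := fun φ => rfl
  have htor' : ∀ x : Cyc D (pt0 Qb), (QuotientAddGroup.mk x : CH V (pt0 Qb) (0 + D)) = 0 →
      (LibCV66.Phi (pt0 Qb) (pr V) γ η x).1 = 0 := by
    have e : ∀ n, n = D → ∀ x : Cyc D (pt0 Qb), (QuotientAddGroup.mk x : CH V (pt0 Qb) n) = 0 →
      (LibCV66.Phi (pt0 Qb) (pr V) γ η x).1 = 0 := by
      intro n hn
      subst hn
      exact htor
    exact e (0 + D) (zero_add D)
  have hmw : ∀ (E : WeierstrassCurve Qb) (p : ℤ × ℤ), c.ord.mw E p = mulw (c.t E) (c.n E) p := by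
    intro E p
    simp only [LibAC84H.Ord.mw, mulw, CM.ord, neg_mul]
  have hgood : LibAC84H.Good c.ord V V f := by
    constructor
    · intro N _ a u v _ _
      have h1 := C_par (w := c.w) (φ := fun i => Hm.id (V i)) hV hV hV hξ (org V) N 0 a u v
      have h2 := htor' (cyc (linC c.w (Algebra.ofId Qb F) (fun i => Hm.id (V i)) ξ
          (N.updateCol a (u + v)) 0 (org V)) +
        cyc (linC c.w (Algebra.ofId Qb F) (fun i => Hm.id (V i)) ξ
          (N.updateCol a (u - v)) 0 (org V)) -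
        ((2 : ℤ) • cyc (linC c.w (Algebra.ofId Qb F) (fun i => Hm.id (V i)) ξ
          (N.updateCol a u) 0 (org V)) +
        (2 : ℤ) • cyc (linC c.w (Algebra.ofId Qb F) (fun i => Hm.id (V i)) ξ
          (N.updateCol a v) 0 (org V)))) (by
        have h3 := sub_eq_zero.2 h1
        exact h3)
      rw [map_sub, map_add, map_add, map_zsmul, map_zsmul] at h2
      simp only [Prod.fst_sub, Prod.fst_add, Prod.smul_fst, smul_eq_mul] at h2
      rw [hf]
      simp only
      have h4 := sub_eq_zero.1 h2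
      exact_mod_cast h4
    · intro N _ a b hab hVab
      have h1 := C_col (w := c.w) (φ := fun i => Hm.id (V i)) hV hξ (org V) N 0 a b hab hVab
      have h2 := htor' (cyc (linC c.w (Algebra.ofId Qb F) (fun i => Hm.id (V i)) ξ
          (N.updateCol b (fun n => N n b + N n a)) 0 (org V)) -
        cyc (linC c.w (Algebra.ofId Qb F) (fun i => Hm.id (V i)) ξ N 0 (org V)))
        (sub_eq_zero.2 h1)
      rw [map_sub, Prod.fst_sub] at h2
      rw [hf]
      simp only
      have h4 := sub_eq_zero.1 h2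
      exact_mod_cast h4
    · intro N hN a b hab hVab _
      have h1 := C_colw (w := c.w) (φ := fun i => Hm.id (V i)) hV hξ (org V) N 0 a b hab hVab
        (c.t (V a)) (c.n (V a)) (c.quad (V a)) (fun m hm => ((hN a) m).1 (Ne.symm hm))
      have h2 := htor' (cyc (linC c.w (Algebra.ofId Qb F) (fun i => Hm.id (V i)) ξ
          (N.updateCol b (fun n => N n b + mulw (c.t (V a)) (c.n (V a)) (N n a))) 0 (org V)) -
        cyc (linC c.w (Algebra.ofId Qb F) (fun i => Hm.id (V i)) ξ N 0 (org V)))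
        (sub_eq_zero.2 h1)
      rw [map_sub, Prod.fst_sub] at h2
      simp only [hmw]
      rw [hf]
      simp only
      have h4 := sub_eq_zero.1 h2
      exact_mod_cast h4
    · intro a ha
      have : (V a).IsElliptic := hV a
      obtain ⟨δ, hδ⟩ := C_deg (w := c.w) hξ a (hV a) (c.t (V a)) (c.n (V a)) (c.quad (V a))
        (c.exists_ne (V a) ha)
      refine ⟨δ, fun N hN => ?_⟩
      have h1 := hδ D V V (fun i => Hm.id (V i)) (pt0 Qb) (org V) N 0
        (fun m hm => ((hN a) m).1 (Ne.symm hm))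
      have h2 := htor' (cyc (linC c.w (Algebra.ofId Qb F) (fun i => Hm.id (V i)) ξ
          (N.updateCol a (fun m => mulw (c.t (V a)) (c.n (V a)) (N m a))) 0 (org V)) -
        δ • cyc (linC c.w (Algebra.ofId Qb F) (fun i => Hm.id (V i)) ξ N 0 (org V)))
        (sub_eq_zero.2 h1)
      rw [map_sub, map_nsmul, Prod.fst_sub, Prod.smul_fst, nsmul_eq_mul] at h2
      simp only [hmw]
      rw [hf]
      simp only
      have h4 := sub_eq_zero.1 h2
      exact_mod_cast h4
  have hone : f (oneP (Fin D)) = 1 := by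
    rw [hfS]
    obtain ⟨s₀, hs₀, huniq⟩ := LibCV66.emb_gen (Ω := Ω) hV hξ hη
    have h1 : S (oneP (Fin D)) = {s₀} := by
      ext s
      rw [hmem, Set.mem_singleton_iff]
      have h2 : ∀ a, mxC c.w V (oneP (Fin D)) (fun b => mp s (ξ b)) a = mp s (ξ a) := by
        intro a
        unfold mxC
        rw [Finset.sum_eq_single a]
        · rw [tr_self, oneP, if_pos rfl, sm_apply]
          simp
        · intro b _ hb
          rw [oneP, if_neg (Ne.symm hb)]
          exact sm_zero' _ _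
        · intro h; exact absurd (Finset.mem_univ a) h
      simp only [h2]
      constructor
      · intro h
        exact huniq s h
      · rintro rfl
        exact hs₀
    rw [h1, Set.ncard_singleton]
    norm_num
  have key := eval_one hgood (blk_of_mat c hφ)
  rw [hone, hfS, hset] at key
  refine ⟨by rw [← hset]; exact hfin φ, ?_⟩
  rw [cx_eq]
  simpa using key

end count

end Pool.Agent.LibAC84C
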