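import Pool.Agent.LibAC84H.Alg

/-!
The derivative of the numbers `|det (Mᵀ N)| ^ 2`.
-/

open Matrix
open scoped ComplexConjugate Classical

set_option linter.unusedSectionVars false

namespace Pool.Agent.LibAC84C

open Pool.Agent.LibAC84H

variable {C R D : Type} [DecidableEq C] [Fintype R] [DecidableEq R] [Fintype D] [DecidableEq D]

/-- the coefficients -/
noncomputable def yv (M N : Matrix R D ℂ) (z : R → ℂ) (a : D) : ℂ :=
  ∑ b, (∑ i, z i * N i b) * (Mᵀ * N).adjugate b a

theorem schur_eq (M N : Matrix R D ℂ) (z v : R → ℂ) : schur M N z v =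
    (Mᵀ * N).det * (∑ i, z i * v i) - ∑ a, yv M N z a * ∑ k, M k a * v k := by
  unfold schur yv
  congr 1
  refine Finset.sum_congr rfl fun b _ => ?_
  rw [Finset.sum_mul]

theorem yv_eq_det (M N : Matrix R D ℂ) (z : R → ℂ) (a : D) :
    yv M N z a = ((Mᵀ * N).updateRow a (fun b => ∑ i, z i * N i b)).det := by
  rw [← Matrix.cramer_transpose_apply, Matrix.cramer_eq_adjugate_mulVec, mulVec_eq, yv]
  refine Finset.sum_congr rfl fun b _ => ?_
  rw [← Matrix.adjugate_transpose, Matrix.transpose_apply, mul_comm]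

theorem updateCol_mul (M N : Matrix R D ℂ) (a : D) (u : R → ℂ) :
    (M.updateCol a u)ᵀ * N = (Mᵀ * N).updateRow a (fun b => ∑ i, u i * N i b) := by
  ext b b'
  by_cases h : b = a
  · subst h
    rw [Matrix.updateRow_self, Matrix.mul_apply]
    refine Finset.sum_congr rfl fun i _ => ?_
    rw [Matrix.transpose_apply, Matrix.updateCol_self]
  · rw [Matrix.updateRow_ne h, Matrix.mul_apply, Matrix.mul_apply]
    refine Finset.sum_congr rfl fun i _ => ?_
    rw [Matrix.transpose_apply, Matrix.updateCol_ne h, Matrix.transpose_apply]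

theorem det_shift (M N : Matrix R D ℂ) (z : R → ℂ) (a : D) (t : ℂ) :
    ((M.updateCol a (fun i => M i a + t * z i))ᵀ * N).det =
      (Mᵀ * N).det + t * yv M N z a := by
  rw [updateCol_mul, yv_eq_det]
  have h1 : (fun b => ∑ i, (M i a + t * z i) * N i b) =
      (fun b => (Mᵀ * N) a b) + t • (fun b => ∑ i, z i * N i b) := by
    funext b
    rw [Pi.add_apply, Pi.smul_apply, smul_eq_mul, Matrix.mul_apply, Finset.mul_sum,
      ← Finset.sum_add_distrib]
    refine Finset.sum_congr rfl fun i _ => ?_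
    rw [Matrix.transpose_apply]
    ring
  rw [h1, Matrix.det_updateRow_add, Matrix.det_updateRow_smul]
  congr 2
  exact Matrix.updateRow_eq_self _ _

section real
variable {o : LibAC84H.Ord C} {ρ : R → C} {τ : D → C}

theorem blk_mul_zero {M N : Matrix R D (ℤ × ℤ)} (hM : Blk o ρ τ M) (hN : Blk o ρ τ N) {b b' : D}
    (h : τ b ≠ τ b') : ((toC o ρ M)ᵀ * toC o ρ N) b b' = 0 := by
  rw [Matrix.mul_apply]
  refine Finset.sum_eq_zero fun i _ => ?_
  rw [Matrix.transpose_apply]
  by_cases h1 : ρ i = τ b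
  · rw [blkR_toC hN i b' (fun h2 => h (h1.symm.trans h2)), mul_zero]
  · rw [blkR_toC hM i b h1, zero_mul]

theorem blk_mul_real {M N : Matrix R D (ℤ × ℤ)} (hM : Blk o ρ τ M) (hN : Blk o ρ τ N) {b b' : D}
    (h : ¬ o.cm (τ b)) : conj (((toC o ρ M)ᵀ * toC o ρ N) b b') =
      ((toC o ρ M)ᵀ * toC o ρ N) b b' := by
  rw [Matrix.mul_apply, map_sum]
  refine Finset.sum_congr rfl fun i _ => ?_
  rw [Matrix.transpose_apply, map_mul]
  by_cases h1 : ρ i = τ b
  · have h2 : ¬ o.cm (ρ i) := by rw [h1]; exact h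
    rw [blk_real hM b h2, blk_real hN b' h2]
  · rw [blkR_toC hM i b h1, zero_mul, map_zero, zero_mul]

theorem det_real {S : Type} [Fintype S] [DecidableEq S] (A : Matrix S S ℂ)
    (h : ∀ a b, conj (A a b) = A a b) : conj A.det = A.det := by
  rw [← LibAC84H.det_conj]
  congr 1
  ext a b
  exact h a b

theorem real_mul {M N : Matrix R D (ℤ × ℤ)} (hM : Blk o ρ τ M) (hN : Blk o ρ τ N) {c : C}
    (hc : ¬ o.cm c) (z : R → ℤ) (hz : ∀ i, ρ i ≠ c → z i = 0) {a : D} (ha : τ a = c) :
    conj (conj ((toC o ρ M)ᵀ * toC o ρ N).det * yv (toC o ρ M) (toC o ρ N) (fun i => (z i : ℂ)) a) =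
      conj ((toC o ρ M)ᵀ * toC o ρ N).det *
        yv (toC o ρ M) (toC o ρ N) (fun i => (z i : ℂ)) a := by
  rw [yv_eq_det]
  set A := (toC o ρ M)ᵀ * toC o ρ N with hA
  set v : D → ℂ := fun b => ∑ i, (z i : ℂ) * toC o ρ N i b with hv
  have hv0 : ∀ b, τ b ≠ c → v b = 0 := by
    intro b hb
    rw [hv]
    refine Finset.sum_eq_zero fun i _ => ?_
    by_cases hi : ρ i = c
    · rw [blkR_toC hN i b (fun h => hb (h.symm.trans hi)), mul_zero]
    · rw [hz i hi, Int.cast_zero, zero_mul]
  have hvr : ∀ b, conj (v b) = v b := by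
    intro b
    rw [hv]
    simp only
    rw [map_sum]
    refine Finset.sum_congr rfl fun i _ => ?_
    by_cases hi : ρ i = c
    · rw [map_mul, map_intCast, blk_real hN b (by rw [hi]; exact hc)]
    · rw [hz i hi, Int.cast_zero, zero_mul, map_zero]
  have hA1 := Matrix.twoBlockTriangular_det A (fun b => τ b = c) (fun b hb b' hb' =>
    blk_mul_zero hM hN (fun h => hb (h.trans hb')))
  have hA2 := Matrix.twoBlockTriangular_det (A.updateRow a v) (fun b => τ b = c)
    (fun b hb b' hb' => by
      rw [Matrix.updateRow_ne (fun h : b = a => hb (by rw [h]; exact ha))]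
      exact blk_mul_zero hM hN (fun h => hb (h.trans hb')))
  have e1 : (A.updateRow a v).toSquareBlockProp (fun b => ¬ τ b = c) =
      A.toSquareBlockProp (fun b => ¬ τ b = c) := by
    ext b b'
    show A.updateRow a v b b' = A b b'
    rw [Matrix.updateRow_ne (fun h : (b : D) = a => b.2 (by rw [h]; exact ha))]
  have r1 : conj (A.toSquareBlockProp (fun b => τ b = c)).det =
      (A.toSquareBlockProp (fun b => τ b = c)).det := by
    apply det_real
    intro b b'
    exact blk_mul_real hM hN (by rw [b.2]; exact hc)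
  have r2 : conj ((A.updateRow a v).toSquareBlockProp (fun b => τ b = c)).det =
      ((A.updateRow a v).toSquareBlockProp (fun b => τ b = c)).det := by
    apply det_real
    intro b b'
    show conj (A.updateRow a v b b') = A.updateRow a v b b'
    by_cases h : (b : D) = a
    · rw [h, Matrix.updateRow_self]
      exact hvr b'
    · rw [Matrix.updateRow_ne h]
      exact blk_mul_real hM hN (by rw [b.2]; exact hc)
  rw [hA1, hA2, e1]
  simp only [map_mul, Complex.conj_conj, r1, r2]
  ring

theorem deriv_zero {J : Type} (s : Finset J) (m : J → ℤ) (N : J → Matrix R D (ℤ × ℤ))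
    (hN : ∀ j ∈ s, Blk o ρ τ (N j))
    (hom : ∀ M, Blk o ρ τ M →
      ∑ j ∈ s, m j * Complex.normSq ((toC o ρ M)ᵀ * toC o ρ (N j)).det = 0)
    {M : Matrix R D (ℤ × ℤ)} (hM : Blk o ρ τ M) {c : C} (z : R → ℤ)
    (hz : ∀ i, ρ i ≠ c → z i = 0) {a : D} (ha : τ a = c) :
    ∑ j ∈ s, m j * (conj ((toC o ρ M)ᵀ * toC o ρ (N j)).det *
      yv (toC o ρ M) (toC o ρ (N j)) (fun i => (z i : ℂ)) a) = 0 := by
  set S : ℂ := ∑ j ∈ s, m j * (conj ((toC o ρ M)ᵀ * toC o ρ (N j)).det *
      yv (toC o ρ M) (toC o ρ (N j)) (fun i => (z i : ℂ)) a) with hS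
  -- the shifted matrices
  have shift : ∀ p : ℤ × ℤ, (¬ o.cm c → p.2 = 0) → ∀ j ∈ s, Blk o ρ τ
      (M.updateCol a (fun i => M i a + z i • p)) ∧
      ((toC o ρ (M.updateCol a (fun i => M i a + z i • p)))ᵀ * toC o ρ (N j)).det =
        ((toC o ρ M)ᵀ * toC o ρ (N j)).det + o.cx c p *
          yv (toC o ρ M) (toC o ρ (N j)) (fun i => (z i : ℂ)) a := by
    intro p hp j hj
    constructor
    · refine hM.updateCol ((hM a).add ?_)
      intro i
      refine ⟨fun h => ?_, fun h => ?_⟩
      · simp only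
        rw [hz i (by rw [← ha]; exact h), zero_smul]
      · by_cases hi : ρ i = c
        · simp only [Prod.smul_snd]
          rw [hp (by rw [← hi]; exact h), smul_zero]
        · simp only
          rw [hz i hi, zero_smul]
          rfl
    · rw [← det_shift]
      congr 3
      ext i b
      by_cases hb : b = a
      · subst hb
        rw [toC_apply, Matrix.updateCol_self, Matrix.updateCol_self, o.cx_add, o.cx_zsmul,
          toC_apply]
        by_cases hi : ρ i = c
        · rw [hi]
          ring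
        · rw [hz i hi]
          simp
      · rw [toC_apply, Matrix.updateCol_ne hb, Matrix.updateCol_ne hb, toC_apply]
  have key : ∀ p : ℤ × ℤ, (¬ o.cm c → p.2 = 0) → (o.cx c p * S).re = 0 := by
    intro p hp
    have h1 := hom (M.updateCol a (fun i => M i a + z i • p))
    have h2 := hom (M.updateCol a (fun i => M i a + z i • (-p)))
    by_cases hs : s.Nonempty
    · obtain ⟨j0, hj0⟩ := hs
      have hp' : ¬ o.cm c → (-p).2 = 0 := fun h => by rw [Prod.snd_neg, hp h, neg_zero]
      have h1' := h1 (shift p hp j0 hj0).1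
      have h2' := h2 (shift (-p) hp' j0 hj0).1
      have g1 : ∑ j ∈ s, (m j : ℝ) * Complex.normSq (((toC o ρ M)ᵀ * toC o ρ (N j)).det +
            o.cx c p * yv (toC o ρ M) (toC o ρ (N j)) (fun i => (z i : ℂ)) a) = 0 := by
        rw [← h1']
        exact Finset.sum_congr rfl fun j hj => by rw [(shift p hp j hj).2]
      have g2 : ∑ j ∈ s, (m j : ℝ) * Complex.normSq (((toC o ρ M)ᵀ * toC o ρ (N j)).det +
            o.cx c (-p) * yv (toC o ρ M) (toC o ρ (N j)) (fun i => (z i : ℂ)) a) = 0 := by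
        rw [← h2']
        exact Finset.sum_congr rfl fun j hj => by rw [(shift (-p) hp' j hj).2]
      have hcx : o.cx c (-p) = - o.cx c p := by
        have := o.cx_zsmul c (-1) p
        rw [neg_one_smul] at this
        rw [this]
        push_cast
        ring
      have h3 := sub_eq_zero.2 (g1.trans g2.symm)
      rw [← Finset.sum_sub_distrib] at h3
      have h4 : ∀ j ∈ s, ((m j : ℝ) * Complex.normSq (((toC o ρ M)ᵀ * toC o ρ (N j)).det +
            o.cx c p * yv (toC o ρ M) (toC o ρ (N j)) (fun i => (z i : ℂ)) a) -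
          (m j : ℝ) * Complex.normSq (((toC o ρ M)ᵀ * toC o ρ (N j)).det +
            o.cx c (-p) * yv (toC o ρ M) (toC o ρ (N j)) (fun i => (z i : ℂ)) a)) =
          4 * ((m j : ℂ) * (o.cx c p * (conj ((toC o ρ M)ᵀ * toC o ρ (N j)).det *
            yv (toC o ρ M) (toC o ρ (N j)) (fun i => (z i : ℂ)) a))).re := by
        intro j hj
        rw [hcx, neg_mul, ← sub_eq_add_neg, Complex.normSq_add, Complex.normSq_sub]
        simp only [Complex.mul_re, Complex.mul_im, Complex.conj_re, Complex.conj_im,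
          Complex.intCast_re, Complex.intCast_im]
        ring
      rw [Finset.sum_congr rfl h4, ← Finset.mul_sum, ← Complex.re_sum] at h3
      have h5 : ∑ j ∈ s, (m j : ℂ) * (o.cx c p * (conj ((toC o ρ M)ᵀ * toC o ρ (N j)).det *
            yv (toC o ρ M) (toC o ρ (N j)) (fun i => (z i : ℂ)) a)) = o.cx c p * S := by
        rw [hS, Finset.mul_sum]
        refine Finset.sum_congr rfl fun j _ => ?_
        ring
      rw [h5] at h3
      linarith
    · rw [Finset.not_nonempty_iff_eq_empty] at hs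
      rw [hS, hs]
      simp
  have k1 : S.re = 0 := by
    have := key (1, 0) (fun _ => rfl)
    simpa [Ord.cx] using this
  by_cases hc : o.cm c
  · have k2 : (o.ω c * S).re = 0 := by
      have := key (0, 1) (fun h => absurd hc h)
      simpa [Ord.cx] using this
    rw [Complex.mul_re, k1, mul_zero, zero_sub, neg_eq_zero] at k2
    rcases mul_eq_zero.1 k2 with h | h
    · exact absurd h hc
    · exact Complex.ext k1 h
  · have hreal : conj S = S := by
      rw [hS, map_sum]
      refine Finset.sum_congr rfl fun j hj => ?_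
      rw [map_mul, map_intCast, real_mul hM (hN j hj) hc z hz ha]
    exact Complex.ext k1 (Complex.conj_eq_iff_im.1 hreal)

end real

/-! ### square matrices -/

section one
variable {o : LibAC84H.Ord C} {τ : D → C}

/-- the identity matrix -/
def oneP (D : Type) [DecidableEq D] : Matrix D D (ℤ × ℤ) := fun a b => if a = b then (1, 0) else 0

theorem blk_one : Blk o τ τ (oneP D) := by
  intro a i
  refine ⟨fun h => ?_, fun _ => ?_⟩
  · exact if_neg (fun h' : i = a => h (by rw [h']))
  · show (if i = a then ((1, 0) : ℤ × ℤ) else 0).2 = 0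
    split_ifs <;> rfl

theorem toC_one : toC o τ (oneP D) = 1 := by
  ext i a
  rw [toC_apply, oneP]
  by_cases h : i = a
  · subst h
    rw [if_pos rfl, Matrix.one_apply_eq]
    simp [Ord.cx]
  · rw [if_neg h, Matrix.one_apply_ne h, o.cx_zero]

theorem eval_one {f : Matrix D D (ℤ × ℤ) → ℚ} (hf : Good o τ τ f) {φ : Matrix D D (ℤ × ℤ)}
    (hφ : Blk o τ τ φ) :
    ((f φ : ℚ) : ℝ) = Complex.normSq (toC o τ φ).det * ((f (oneP D) : ℚ) : ℝ) := by
  obtain ⟨P, hP, hP'⟩ := hf.exists_poly
  have h1 := nice_of_blk hf hP hP' (toC o τ φ) (cj (toC o τ φ))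
    (fun a b h => blkR_toC hφ a b h) (fun a b h => blkR_cj (blkR_toC hφ) a b h)
    (fun a b h => blk_real hφ b h)
  have h2 := h1 (toC o τ (oneP D)) (cj (toC o τ (oneP D)))
  have e1 : cj (toC o τ (oneP D)) = 1 := by
    ext i a
    rw [cj_apply, toC_one]
    by_cases h : i = a
    · subst h
      simp
    · simp [h]
  have e2 : (cj (toC o τ φ)).det = conj (toC o τ φ).det := LibAC84H.det_conj _
  have h3 := hP _ (blk_one (o := o) (τ := τ))
  rw [e1] at h2 h3
  rw [toC_one] at h2 h3
  rw [Matrix.one_mul, Matrix.one_mul, hP φ hφ, h3, e2] at h2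
  have h4 : (toC o τ φ).det * conj (toC o τ φ).det =
      ((Complex.normSq (toC o τ φ).det : ℝ) : ℂ) := Complex.mul_conj _
  rw [h4] at h2
  exact_mod_cast h2

end one

end Pool.Agent.LibAC84C
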