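import Pool.Agent.LibCV66.C1
import Pool.Agent.LibCV66.P6
import Pool.Agent.LibAC34.CFin
import Pool.Agent.LibAF11.Stmt
import Pool.Agent.LibAC84C.Mat

/-!
Homomorphisms given by matrices with entries in orders, the number of solutions of `φ x = η`.
-/

open WeierstrassCurve Pool.Agent.LibBH2 Pool.Agent.LibIG50 Pool.Agent.LibCHd Pool.Agent.LibGG
  Pool.Agent.LibAC34 Pool.Agent.LibAF11
open scoped Classical ComplexConjugate

namespace Pool.Agent.LibAC84C

section gen
variable {k : Type} [Field k] {r D : ℕ} {F G : Type} [Field F] [Algebra k F] [Field G]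
  [Algebra k G]

theorem tr_tr {A B C : WeierstrassCurve k} (h : B = C) (p : (A⁄F).toAffine.Point) :
    tr B C (tr A B p) = tr A C p := by
  subst h
  rw [tr_self]

theorem tr_sm (w : ∀ E : WeierstrassCurve k, Hm E E) (V W : WeierstrassCurve k) (c : ℤ × ℤ)
    (P : (V⁄F).toAffine.Point) : tr V W (sm (w V) F c P) = sm (w W) F c (tr V W P) := by
  by_cases h : V = W
  · subst h
    rw [tr_self, tr_self]
  · rw [tr_ne h, tr_ne h, map_zero]

theorem tr_sum {ι : Type} (s : Finset ι) (V W : WeierstrassCurve k)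
    (f : ι → (V⁄F).toAffine.Point) : tr V W (∑ i ∈ s, f i) = ∑ i ∈ s, tr V W (f i) := by
  let t : (V⁄F).toAffine.Point →+ (W⁄F).toAffine.Point := AddMonoidHom.mk' (tr V W) tr_add
  exact map_sum t f s

theorem sm_sum {ι : Type} (s : Finset ι) {E : WeierstrassCurve k} (w : Hm E E)
    (f : ι → ℤ × ℤ) (P : (E⁄F).toAffine.Point) :
    sm w F (∑ i ∈ s, f i) P = ∑ i ∈ s, sm w F (f i) P := by
  let t : ℤ × ℤ →+ (E⁄F).toAffine.Point :=
    AddMonoidHom.mk' (fun c => sm w F c P) (fun c d => sm_add' w c d P)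
  exact map_sum t f s

theorem sm_zero' {E : WeierstrassCurve k} (w : Hm E E) (P : (E⁄F).toAffine.Point) :
    sm w F 0 P = 0 := by
  rw [sm_apply]
  simp

/-- the homomorphism `∑ i, v i • P i` from `W 1 × ... × W r` to `E` -/
noncomputable def lcC (w : ∀ E : WeierstrassCurve k, Hm E E) (W : Fin r → WeierstrassCurve k)
    (E : WeierstrassCurve k) [E.IsElliptic] (v : Fin r → ℤ × ℤ) : LibCV66.PH W E where
  f F _ _ := AddMonoidHom.mk' (fun P => ∑ i, sm (w E) F (v i) (tr (W i) E (P i))) fun P Q => by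
    simp only [Pi.add_apply, tr_add, map_add, Finset.sum_add_distrib]
  nat F G _ _ _ _ σ P := by
    simp only [AddMonoidHom.mk'_apply]
    rw [map_sum]
    refine Finset.sum_congr rfl fun i _ => ?_
    rw [mp_sm, mp_tr]
  sp K _ _ v' P p h := by
    simp only [AddMonoidHom.mk'_apply]
    have key : ∀ s : Finset (Fin r), SpR v' (∑ i ∈ s, sm (w E) K (v i) (tr (W i) E (P i)))
        (∑ i ∈ s, sm (w E) (RF v') (v i) (tr (W i) E (p i))) := by
      intro s
      induction s using Finset.induction_on with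
      | empty =>
        rw [Finset.sum_empty, Finset.sum_empty]
        exact spR_zero_iff.2 (Or.inl rfl)
      | insert i s hi ih =>
        rw [Finset.sum_insert hi, Finset.sum_insert hi]
        exact SpR_add (spR_sm (w E) (v i) (spR_tr E (h i))) ih
    exact key Finset.univ

theorem lcC_apply (w : ∀ E : WeierstrassCurve k, Hm E E) (W : Fin r → WeierstrassCurve k)
    (E : WeierstrassCurve k) [E.IsElliptic] (v : Fin r → ℤ × ℤ)
    (P : ∀ i, ((W i)⁄F).toAffine.Point) :
    (lcC w W E v).f F P = ∑ i, sm (w E) F (v i) (tr (W i) E (P i)) := rfl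

/-- the homomorphism given by a matrix -/
noncomputable def mxC (w : ∀ E : WeierstrassCurve k, Hm E E) {V : Fin D → WeierstrassCurve k}
    (W : Fin r → WeierstrassCurve k) (N : Matrix (Fin r) (Fin D) (ℤ × ℤ))
    (x : ∀ a, ((V a)⁄F).toAffine.Point) (i : Fin r) : ((W i)⁄F).toAffine.Point :=
  ∑ a, sm (w (W i)) F (N i a) (tr (V a) (W i) (x a))

theorem mp_mxC (w : ∀ E : WeierstrassCurve k, Hm E E) {V : Fin D → WeierstrassCurve k}
    (W : Fin r → WeierstrassCurve k) (N : Matrix (Fin r) (Fin D) (ℤ × ℤ))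
    (x : ∀ a, ((V a)⁄F).toAffine.Point) (s : F →ₐ[k] G) (i : Fin r) :
    mp s (mxC w W N x i) = mxC w W N (fun a => mp s (x a)) i := by
  unfold mxC
  rw [map_sum]
  refine Finset.sum_congr rfl fun a _ => ?_
  rw [mp_sm, mp_tr]

/-- the components of the point `N ξ + g` -/
theorem linC_z (w : ∀ E : WeierstrassCurve k, Hm E E) {V : Fin D → WeierstrassCurve k}
    (W : Fin r → WeierstrassCurve k) (ξ : ∀ a, ((V a)⁄F).toAffine.Point)
    (N : Matrix (Fin r) (Fin D) (ℤ × ℤ)) (g : Pts W) :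
    (linC w (Algebra.ofId k F) (fun i => Hm.id (W i)) ξ N g (org W)).z =
      fun i => constPt F (g i) + mxC w W N ξ i := by
  funext i
  exact add_zero _

end gen

section cm
variable (c : CM) {r D : ℕ} {V : Fin D → WeierstrassCurve Qb} {W : Fin r → WeierstrassCurve Qb}
  {F : Type} [Field F] [Algebra Qb F]

theorem sm_mul (E : WeierstrassCurve Qb) (p q : ℤ × ℤ) (P : (E⁄F).toAffine.Point) :
    sm (c.w E) F (c.ord.mul E p q) P = sm (c.w E) F p (sm (c.w E) F q P) := by
  have h1 : c.ord.mul E p q = q.1 • p + q.2 • mulw (c.t E) (c.n E) p := by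
    simp only [LibAC84H.Ord.mul, LibAC84H.Ord.mw, mulw, CM.ord, neg_mul]
  have h2 : ∀ (m : ℤ) (p : ℤ × ℤ), sm (c.w E) F (m • p) P = m • sm (c.w E) F p P := by
    intro m p
    simp only [sm_apply, Prod.smul_fst, Prod.smul_snd, smul_eq_mul, mul_smul, smul_add]
  have h3 : ∀ (m : ℤ) (p : ℤ × ℤ), sm (c.w E) F (m • mulw (c.t E) (c.n E) p) P =
      m • sm (c.w E) F p ((c.w E).f F P) := by
    intro m p
    rw [h2, sm_mulw (c.w E) (c.quad E)]
  rw [h1, sm_add', h2, h3, sm_apply (c.w E) q P, map_add, map_zsmul, map_zsmul]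

theorem blk_of_mat {N : Matrix (Fin r) (Fin D) (ℤ × ℤ)} (h : MatC c V W N) :
    LibAC84H.Blk c.ord W V N :=
  fun a i => ⟨fun h' => (h i a).1 (Ne.symm h'), fun h' => (h i a).2 (not_not.1 h')⟩

theorem mat_of_blk {N : Matrix (Fin r) (Fin D) (ℤ × ℤ)} (h : LibAC84H.Blk c.ord W V N) :
    MatC c V W N :=
  fun i a => ⟨fun h' => ((h a) i).1 (Ne.symm h'), fun h' => ((h a) i).2 fun h'' => h'' h'⟩

theorem cx_eq (N : Matrix (Fin r) (Fin D) (ℤ × ℤ)) : cx c W N = LibAC84H.toC c.ord W N := rfl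

/-- the matrix of the product `Mᵀ N` -/
def prodM (c : CM) (V : Fin D → WeierstrassCurve Qb) (M N : Matrix (Fin r) (Fin D) (ℤ × ℤ)) :
    Matrix (Fin D) (Fin D) (ℤ × ℤ) := fun a b => ∑ i, c.ord.mul (V a) (M i a) (N i b)

theorem mul_zero_left (E : WeierstrassCurve Qb) (q : ℤ × ℤ) : c.ord.mul E 0 q = 0 := by
  unfold LibAC84H.Ord.mul
  rw [LibAC84H.Ord.mw_zero, smul_zero, smul_zero, add_zero]

theorem mul_zero_right (E : WeierstrassCurve Qb) (p : ℤ × ℤ) : c.ord.mul E p 0 = 0 := by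
  unfold LibAC84H.Ord.mul
  simp

theorem blk_prod {M N : Matrix (Fin r) (Fin D) (ℤ × ℤ)} (hM : MatC c V W M)
    (hN : MatC c V W N) : MatC c V V (prodM c V M N) := by
  intro a b
  refine ⟨fun h => ?_, fun h => ?_⟩
  · refine Finset.sum_eq_zero fun i _ => ?_
    by_cases h1 : V a = W i
    · have h2 : N i b = 0 := (hN i b).1 fun h3 => h (h3.trans h1.symm)
      rw [h2, mul_zero_right]
    · rw [(hM i a).1 h1, mul_zero_left]
  · show (∑ i, c.ord.mul (V a) (M i a) (N i b)).2 = 0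
    rw [Prod.snd_sum]
    refine Finset.sum_eq_zero fun i _ => ?_
    by_cases h1 : V a = W i
    · have h2 : (M i a).2 = 0 := (hM i a).2 (by rw [← h1]; exact h)
      have h3 : (N i b).2 = 0 := (hN i b).2 (by rw [← h1]; exact h)
      unfold LibAC84H.Ord.mul
      rw [h3, zero_smul, add_zero, Prod.smul_snd, h2, smul_zero]
    · rw [(hM i a).1 h1, mul_zero_left]
      rfl

theorem cx_prod {M N : Matrix (Fin r) (Fin D) (ℤ × ℤ)} (hM : MatC c V W M) :
    cx c V (prodM c V M N) = (cx c W M).transpose * cx c W N := by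
  ext a b
  rw [Matrix.mul_apply, cx_eq, LibAC84H.toC_apply]
  have h1 : c.ord.cx (V a) (∑ i, c.ord.mul (V a) (M i a) (N i b)) =
      ∑ i, c.ord.cx (V a) (c.ord.mul (V a) (M i a) (N i b)) := by
    let t : ℤ × ℤ →+ ℂ := AddMonoidHom.mk' (c.ord.cx (V a)) (c.ord.cx_add (V a))
    exact map_sum t _ _
  refine h1.trans (Finset.sum_congr rfl fun i _ => ?_)
  rw [c.ord.cx_mul, Matrix.transpose_apply]
  by_cases h : V a = W i
  · rw [h]
    rfl
  · rw [(hM i a).1 h, LibAC84H.Ord.cx_zero, zero_mul, cx_eq, LibAC84H.toC_apply, (hM i a).1 h,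
      LibAC84H.Ord.cx_zero, zero_mul]

/-- the composition of two homomorphisms given by matrices -/
theorem lcC_mxC (hV : ∀ a, (V a).IsElliptic) {M N : Matrix (Fin r) (Fin D) (ℤ × ℤ)}
    (hM : MatC c V W M) (x : ∀ a, ((V a)⁄F).toAffine.Point) (a : Fin D) :
    haveI := hV a
    (lcC c.w W (V a) (fun i => M i a)).f F (mxC c.w W N x) = mxC c.w V (prodM c V M N) x a := by
  haveI := hV a
  rw [lcC_apply]
  have h1 : ∀ i, sm (c.w (V a)) F (M i a) (tr (W i) (V a) (mxC c.w W N x i)) =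
      ∑ b, sm (c.w (V a)) F (c.ord.mul (V a) (M i a) (N i b)) (tr (V b) (V a) (x b)) := by
    intro i
    by_cases h : V a = W i
    · unfold mxC
      rw [tr_sum, map_sum]
      refine Finset.sum_congr rfl fun b _ => ?_
      rw [tr_sm, tr_tr h.symm, sm_mul]
    · rw [(hM i a).1 h, sm_zero']
      symm
      refine Finset.sum_eq_zero fun b _ => ?_
      rw [mul_zero_left, sm_zero']
  rw [Finset.sum_congr rfl fun i _ => h1 i, Finset.sum_comm]
  unfold mxC prodM
  refine Finset.sum_congr rfl fun b _ => ?_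
  rw [sm_sum]

end cm

end Pool.Agent.LibAC84C
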